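import Pool.Agent.MP_12a176_ag.Six.St

/- The average of sixth powers over the orbit of complex structures. -/

set_option autoImplicit false

namespace Pool.Agent.MP_12a176_ag.Six

open Complex Matrix MvPolynomial
open scoped ComplexOrder ComplexConjugate

theorem tr6_conj (α β γ : ℂ) {U : Matrix K K ℂ} (h : Uᴴ * U = 1) (Y : Matrix K K ℂ) :
    tr6 α β γ (U * Y * Uᴴ) = tr6 α β γ Y := by
  have e : ∀ k : ℕ, ((U * Y * Uᴴ) ^ (k + 1)).trace = (Y ^ (k + 1)).trace := fun k => by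
    have : (U * Y * Uᴴ) ^ (k + 1) = U * Y ^ (k + 1) * Uᴴ := by
      induction k with
      | zero => simp
      | succ k ih =>
        rw [pow_succ, ih, pow_succ Y (k + 1)]
        simp only [Matrix.mul_assoc]
        rw [← Matrix.mul_assoc Uᴴ, h, Matrix.one_mul]
    rw [this, trace_mul_comm, ← Matrix.mul_assoc, h, Matrix.one_mul]
  simp only [tr6, e]

theorem dg_skew (y : Fin 3 → ℝ) : (dg y)ᴴ = -dg y := by
  rw [dg, diagonal_conjTranspose, diagonal_neg]
  congr 1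
  ext (a | a) <;> simp

theorem s_avg (h1 : SHaar) (h2 : SWeyl) (h3 : SDiag) (h4 : SRel) (h5 : SChern) : SAvg := by
  obtain ⟨E, a1, a2, a3⟩ := h1
  obtain ⟨α, β, γ, b⟩ := h2 E a2
  have c : ∀ Y : Matrix K K ℂ, Yᴴ = -Y → IsSp Y → E (ell Y ^ 6) = tr6 α β γ Y := fun Y s t => by
    obtain ⟨U, y, g, rfl⟩ := h3 Y s t
    rw [a2 U _ g, b, tr6_conj _ _ _ g.1]
  obtain ⟨d1, d2⟩ := h4 E a1 α β γ c
  have e : ∀ Y, tr6 α β γ Y = γ / 64 * tr6 41 (-84) 64 Y := fun Y => by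
    unfold tr6
    linear_combination (Y ^ 2).trace ^ 3 * (d1 / 24 - 7 * d2 / 192) +
      (Y ^ 2).trace * (Y ^ 4).trace * d2 / 16
  have f : tr6 41 (-84) 64 (dg ![1, 0, 0]) = -120 := by
    have hI : I ^ 6 = -1 := by linear_combination (I ^ 4 - I ^ 2 + 1) * I_sq
    simp [tr6, dg, diagonal_pow, Fintype.sum_sum_type, Fin.sum_univ_three, hI]
    linear_combination 64 * hI + 168 * I_pow_four
  have p : 0 ≤ E (ell (dg ![1, 0, 0]) ^ 6) := a1 _ fun X hX => by
    rw [map_pow, aeval_ell]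
    have : conj (X * dg ![1, 0, 0]).trace = (X * dg ![1, 0, 0]).trace := by
      rw [← star_def, ← trace_conjTranspose, conjTranspose_mul, hX.1, dg_skew, neg_mul_neg,
        trace_mul_comm]
    obtain ⟨r, hr⟩ := conj_eq_iff_real.1 this
    rw [hr]
    exact_mod_cast Even.pow_nonneg (by decide) r
  obtain ⟨p1, p2⟩ := Complex.pos_iff.1 (lt_of_le_of_ne p a3.symm)
  have q : E (ell (dg ![1, 0, 0]) ^ 6) = ((E (ell (dg ![1, 0, 0]) ^ 6)).re : ℝ) :=
    Complex.ext (by simp) (by simp [← p2])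
  refine ⟨E, a1, (E (ell (dg ![1, 0, 0]) ^ 6)).re * (2 * Real.pi) ^ 6 / 5,
    by have := Real.pi_pos; positivity, fun Y s t => ?_⟩
  obtain ⟨U, y, g, rfl⟩ := h3 Y s t
  rw [a2 U _ g, b, e, h5 U y g.1]
  push_cast
  rw [← q, b, e, f]
  ring

end Pool.Agent.MP_12a176_ag.Six
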