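import Pool.Agent.MP_12a176_ag.Six.St

/- Chern polynomials on the Cartan subalgebra. -/

set_option autoImplicit false

namespace Pool.Agent.MP_12a176_ag.Six

open Complex Matrix MvPolynomial
open scoped ComplexOrder ComplexConjugate

theorem det_Chern (y : Fin 3 → ℝ) (s : Fin 3 → ℂ) (hs : ∀ j, s j = y j / (2 * Real.pi)) :
    det (1 + (Polynomial.X : Polynomial ℂ) •
      ((I / (2 * Real.pi)) • (dg y).submatrix eK.symm eK.symm).map Polynomial.C) =
    1 - Polynomial.C (s 0 ^ 2 + s 1 ^ 2 + s 2 ^ 2) * Polynomial.X ^ 2 +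
      Polynomial.C (s 0 ^ 2 * s 1 ^ 2 + s 0 ^ 2 * s 2 ^ 2 + s 1 ^ 2 * s 2 ^ 2) * Polynomial.X ^ 4 -
      Polynomial.C (s 0 ^ 2 * s 1 ^ 2 * s 2 ^ 2) * Polynomial.X ^ 6 := by
  have h1 : ∀ j, I / (2 * Real.pi) * (I * y j) = -s j := fun j => by
    rw [hs]
    linear_combination (y j / (2 * Real.pi) : ℂ) * I_mul_I
  have h2 : (1 + (Polynomial.X : Polynomial ℂ) •
      ((I / (2 * Real.pi)) • (dg y).submatrix eK.symm eK.symm).map Polynomial.C) =
      (diagonal (Sum.elim (fun j => 1 - Polynomial.X * Polynomial.C (s j))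
        fun j => 1 + Polynomial.X * Polynomial.C (s j))).submatrix eK.symm eK.symm := by
    refine Matrix.ext fun a b => ?_
    obtain ⟨a, rfl⟩ := eK.surjective a
    obtain ⟨b, rfl⟩ := eK.surjective b
    simp only [Matrix.add_apply, Matrix.smul_apply, Matrix.map_apply, submatrix_apply,
      Equiv.symm_apply_apply, dg, smul_eq_mul, one_apply, diagonal_apply,
      EmbeddingLike.apply_eq_iff_eq]
    split_ifs
    · rcases a with j | j
      · rw [Sum.elim_inl, Sum.elim_inl, h1, map_neg, mul_neg, sub_eq_add_neg]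
      · rw [Sum.elim_inr, Sum.elim_inr, mul_neg, h1, neg_neg]
    · rw [mul_zero, map_zero, mul_zero, add_zero]
  rw [h2, det_submatrix_equiv_self, det_diagonal, Fintype.prod_sum_type]
  simp only [Sum.elim_inl, Sum.elim_inr, Fin.prod_univ_three, map_add, map_mul, map_pow]
  ring

theorem tr_Chern (y : Fin 3 → ℝ) (k : ℕ) : (dg y ^ (2 * k)).trace =
    2 * (-1) ^ k * ((y 0 : ℂ) ^ (2 * k) + (y 1 : ℂ) ^ (2 * k) + (y 2 : ℂ) ^ (2 * k)) := by
  rw [dg, diagonal_pow, trace_diagonal, Fintype.sum_sum_type]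
  simp only [Pi.pow_apply, Sum.elim_inl, Sum.elim_inr, Fin.sum_univ_three, pow_mul, neg_sq,
    mul_pow, I_sq]
  ring

theorem s_chern : SChern := by
  intro U y hU
  have hg : Uᴴ.submatrix eK.symm eK.symm * U.submatrix eK.symm eK.symm = 1 := by
    rw [submatrix_mul_equiv, hU, submatrix_one_equiv]
  have hc : ∀ k, ev ((U * dg y * Uᴴ).submatrix eK.symm eK.symm) (chernPoly 6 k) = _ := fun k => by
    rw [← submatrix_mul_equiv _ _ _ eK.symm, ← submatrix_mul_equiv _ _ _ eK.symm,
      chern_inv k _ _ _ hg, ev_chern, det_Chern y _ fun _ => rfl]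
  have hπ : (Real.pi : ℂ) ≠ 0 := by exact_mod_cast Real.pi_ne_zero
  have t2 := tr_Chern y 1
  have t4 := tr_Chern y 2
  have t6 := tr_Chern y 3
  norm_num only at t2 t4 t6
  rw [tr6, t2, t4, t6, P6]
  simp only [map_add, map_smul, map_pow, map_mul, smul_eq_mul]
  rw [hc, hc, hc]
  simp only [Polynomial.coeff_add, Polynomial.coeff_sub, Polynomial.coeff_C_mul,
    Polynomial.coeff_X_pow, Polynomial.coeff_one]
  norm_num only [if_true, if_false]
  field_simp
  ring

end Pool.Agent.MP_12a176_ag.Six
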