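import Pool.Agent.MP_12a176_ag.Six.St

set_option autoImplicit false

namespace Pool.Agent.MP_12a176_ag.Six

open Complex Matrix MvPolynomial
open scoped ComplexOrder ComplexConjugate

theorem cj_Diag (A : Matrix K K ℂ) : A.map conj = Aᴴᵀ := by
  ext i j
  simp

theorem Jc_Diag : (JJ ℂ).map conj = JJ ℂ := by
  ext i j
  rcases i with i | i <;> rcases j with j | j <;> simp [Matrix.J, Matrix.one_apply, apply_ite]

theorem JH_Diag : (JJ ℂ)ᴴ = -JJ ℂ := by
  rw [← Matrix.transpose_transpose (JJ ℂ)ᴴ, ← cj_Diag, Jc_Diag, Matrix.J_transpose]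

theorem s_diag (h : SSpec) : SDiag := by
  intro Y hY hS
  have hT : ((-I) • Y)ᴴ = (-I) • Y := by
    rw [conjTranspose_smul, hY]
    simp
  have hS' : Y * JJ ℂ = -(JJ ℂ * Yᵀ) := eq_neg_of_add_eq_zero_left hS
  obtain ⟨U, d, μ, hd, h1, h2, h3⟩ := h K (by simp) (JJ ℂ) ((-I) • Y) (-1)
    (Matrix.J_transpose _ _) (Matrix.isUnit_det_J _ _).ne_zero hT
    (by
      rw [cj_Diag, hT, transpose_smul, Matrix.smul_mul, Matrix.mul_smul, hS']
      simp)
    (fun v _ _ => ⟨-1, by rw [Jc_Diag, Matrix.J_squared, Matrix.neg_mulVec, one_mulVec]; simp⟩)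
  have h1' : U * Uᴴ = 1 := mul_eq_one_comm.1 h1
  have h4 : Uᴴᵀ * Uᵀ = 1 := by rw [← transpose_mul, h1', transpose_one]
  have h5 : Uᵀ * Uᴴᵀ = 1 := by rw [← transpose_mul, h1, transpose_one]
  rw [cj_Diag] at h3
  set M : Matrix K K ℂ :=
    fromBlocks 0 (-diagonal fun i => (d i : ℂ)) (diagonal fun i => (d i : ℂ)) 0 with hM
  have hMM : Mᴴ * M = 1 := by
    have e1 : (U * M)ᴴ * (U * M) = Mᴴ * M := by
      rw [conjTranspose_mul, Matrix.mul_assoc, ← Matrix.mul_assoc Uᴴ, h1, Matrix.one_mul]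
    have e2 : (Uᴴᵀ)ᴴ = Uᵀ := by
      ext i j
      simp
    rw [← e1, ← h3, conjTranspose_mul, e2, JH_Diag, Matrix.mul_assoc, ← Matrix.mul_assoc (-JJ ℂ),
      Matrix.neg_mul, Matrix.J_squared, neg_neg, Matrix.one_mul, h5]
  have hd1 : ∀ i, d i = 1 := by
    intro i
    have e := congrFun (congrFun hMM (Sum.inl i)) (Sum.inl i)
    rw [hM, fromBlocks_conjTranspose, fromBlocks_multiply] at e
    simp [diagonal_conjTranspose] at e
    have e' : d i * d i = 1 := by exact_mod_cast e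
    have := hd i
    nlinarith
  have hMJ : M = JJ ℂ := by
    rw [hM]
    simp [hd1, Matrix.J]
  refine ⟨U, μ, ⟨h1, ?_⟩, ?_⟩
  · rw [← hMJ, ← h3, Matrix.mul_assoc, h4, Matrix.mul_one, hMJ]
  · have e : Y * U = U * dg μ := by
      have e1 : Y * U = I • (((-I) • Y) * U) := by
        rw [Matrix.smul_mul, smul_smul]
        simp
      rw [e1, h2, ← Matrix.mul_smul, dg, ← diagonal_smul]
      congr 2
      ext i
      rcases i with i | i <;> simp
    rw [← e, Matrix.mul_assoc, h1', Matrix.mul_one]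

end Pool.Agent.MP_12a176_ag.Six
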