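import Pool.Agent.MP_12a176_ag.Six.St

set_option autoImplicit false

namespace Pool.Agent.MP_12a176_ag.Six

open Complex Matrix MvPolynomial
open scoped ComplexOrder ComplexConjugate

theorem mul_Haar {U V : Matrix K K ℂ} (hU : U * JJ ℂ * Uᵀ = JJ ℂ) (hV : V * JJ ℂ * Vᵀ = JJ ℂ) :
    U * V * JJ ℂ * (U * V)ᵀ = JJ ℂ := by
  calc U * V * JJ ℂ * (U * V)ᵀ = U * (V * JJ ℂ * Vᵀ) * Uᵀ := by
        simp only [transpose_mul, Matrix.mul_assoc]
    _ = JJ ℂ := by rw [hV, hU]

theorem inv_Haar {U : Matrix K K ℂ} (h : Grp U) : Uᴴ * JJ ℂ * Uᴴᵀ = JJ ℂ := by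
  have h1 : Uᵀ * Uᴴᵀ = 1 := by rw [← transpose_mul, h.1, transpose_one]
  calc Uᴴ * JJ ℂ * Uᴴᵀ = Uᴴ * (U * JJ ℂ * Uᵀ) * Uᴴᵀ := by rw [h.2]
    _ = (Uᴴ * U) * JJ ℂ * (Uᵀ * Uᴴᵀ) := by simp only [Matrix.mul_assoc]
    _ = JJ ℂ := by rw [h.1, h1, Matrix.one_mul, Matrix.mul_one]

/-- The compact symplectic group as a subgroup of the unitary group. -/
def G_Haar : Subgroup (Matrix.unitaryGroup K ℂ) where
  carrier := {u | u.1 * JJ ℂ * u.1ᵀ = JJ ℂ}
  mul_mem' := fun ha hb => mul_Haar ha hb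
  one_mem' := by simp
  inv_mem' := fun {u} hu => inv_Haar ⟨u.2.1, hu⟩

theorem grp_Haar (g : G_Haar) : Grp g.1.1 := ⟨g.1.2.1, g.2⟩

theorem compact_Haar : CompactSpace G_Haar := by
  have h1 : CompactSpace (Matrix.unitaryGroup K ℂ) := by
    refine isCompact_iff_compactSpace.1 (IsCompact.of_isClosed_subset
      (s := Set.pi Set.univ fun _ : K => Set.pi Set.univ fun _ : K => Metric.closedBall (0 : ℂ) 1)
      (isCompact_univ_pi fun _ => isCompact_univ_pi fun _ => isCompact_closedBall _ _)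
      (isClosed_unitary (R := Matrix K K ℂ)) fun U hU i _ j _ => ?_)
    exact mem_closedBall_zero_iff.2 (entry_norm_bound_of_unitary hU i j)
  refine isCompact_iff_compactSpace.1 (IsClosed.isCompact (isClosed_eq ?_ continuous_const))
  exact (continuous_subtype_val.matrix_mul continuous_const).matrix_mul
    continuous_subtype_val.matrix_transpose

theorem dg_star_Haar (y : Fin 3 → ℝ) : (dg y)ᴴ = -dg y := by
  rw [dg, diagonal_conjTranspose, diagonal_neg]
  congr 1
  ext (k | k) <;> simp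

theorem orb_Haar {U : Matrix K K ℂ} (h : Grp U) : Orb (U * dg (fun _ => 1) * Uᴴ) := by
  have h0 : U * Uᴴ = 1 := mul_eq_one_comm.1 h.1
  have h1 : IsSp (dg fun _ => 1) := by
    unfold IsSp
    rw [dg, diagonal_transpose]
    ext (i | i) (j | j) <;> by_cases hij : i = j <;>
      simp [Matrix.J, Matrix.diagonal_mul, Matrix.mul_diagonal, hij]
  have h2 : dg (fun _ => 1) * dg (fun _ => 1) = -1 := by
    rw [dg, diagonal_mul_diagonal, ← diagonal_one, diagonal_neg]
    congr 1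
    ext (k | k) <;> simp
  have h3 : Uᴴ * JJ ℂ = JJ ℂ * Uᵀ := by
    calc Uᴴ * JJ ℂ = Uᴴ * (U * JJ ℂ * Uᵀ) := by rw [h.2]
      _ = (Uᴴ * U) * JJ ℂ * Uᵀ := by simp only [Matrix.mul_assoc]
      _ = _ := by rw [h.1, Matrix.one_mul]
  have h4 : JJ ℂ * Uᴴᵀ = U * JJ ℂ := by
    calc JJ ℂ * Uᴴᵀ = (U * Uᴴ) * JJ ℂ * Uᴴᵀ := by rw [h0, Matrix.one_mul]
      _ = U * (Uᴴ * JJ ℂ * Uᴴᵀ) := by simp only [Matrix.mul_assoc]
      _ = _ := by rw [inv_Haar h]
  refine ⟨?_, ?_, ?_⟩
  · simp only [conjTranspose_mul, conjTranspose_conjTranspose, dg_star_Haar, Matrix.mul_assoc,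
      Matrix.neg_mul, Matrix.mul_neg]
  · unfold IsSp at h1 ⊢
    calc U * dg (fun _ => 1) * Uᴴ * JJ ℂ + JJ ℂ * (U * dg (fun _ => 1) * Uᴴ)ᵀ
        = U * dg (fun _ => 1) * (Uᴴ * JJ ℂ) + JJ ℂ * Uᴴᵀ * (dg fun _ => 1)ᵀ * Uᵀ := by
          simp only [transpose_mul, Matrix.mul_assoc]
      _ = U * (dg (fun _ => 1) * JJ ℂ + JJ ℂ * (dg fun _ => 1)ᵀ) * Uᵀ := by
          rw [h3, h4]
          simp only [Matrix.mul_add, Matrix.add_mul, Matrix.mul_assoc]
      _ = 0 := by rw [h1, Matrix.mul_zero, Matrix.zero_mul]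
  · calc U * dg (fun _ => 1) * Uᴴ * (U * dg (fun _ => 1) * Uᴴ)
        = U * (dg (fun _ => 1) * (Uᴴ * U) * dg (fun _ => 1)) * Uᴴ := by
          simp only [Matrix.mul_assoc]
      _ = -1 := by rw [h.1, Matrix.mul_one, h2, Matrix.mul_neg, Matrix.mul_one, Matrix.neg_mul, h0]

theorem real_Haar {A B : Matrix K K ℂ} (hA : Aᴴ = -A) (hB : Bᴴ = -B) :
    (A * B).trace = (((A * B).trace.re : ℝ) : ℂ) := by
  refine (Complex.conj_eq_iff_re.1 ?_).symm
  rw [← Complex.star_def, ← trace_conjTranspose, conjTranspose_mul, hA, hB, Matrix.neg_mul,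
    Matrix.mul_neg, neg_neg, trace_mul_comm]

theorem s_haar : SHaar := by
  have := compact_Haar
  borelize ↥G_Haar
  let μ : MeasureTheory.Measure G_Haar := MeasureTheory.Measure.haar
  let X : G_Haar → Matrix K K ℂ := fun g => g.1.1 * dg (fun _ => 1) * g.1.1ᴴ
  have hX : Continuous X := by
    have h : Continuous fun g : G_Haar => g.1.1 := continuous_subtype_val.comp continuous_subtype_val
    exact (h.matrix_mul continuous_const).matrix_mul h.matrix_conjTranspose
  let F : MvPolynomial (K × K) ℂ → G_Haar → ℂ := fun P g => aeval (fun a : K × K => X g a.1 a.2) P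
  have hF : ∀ P, Continuous (F P) := fun P => by
    induction P using MvPolynomial.induction_on with
    | C a => simpa [F] using continuous_const
    | add p q hp hq => simpa [F] using hp.fun_add hq
    | mul_X p a hp => simpa [F] using hp.fun_mul (hX.matrix_elem a.1 a.2)
  have hI : ∀ P, MeasureTheory.Integrable (F P) μ := fun P =>
    (hF P).integrable_of_hasCompactSupport (HasCompactSupport.of_compactSpace _)
  refine ⟨⟨⟨fun P => ∫ g, F P g ∂μ, fun P Q => ?_⟩, fun c P => ?_⟩, fun P hP => ?_,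
    fun U Y hU => ?_, ?_⟩
  · rw [← MeasureTheory.integral_add (hI P) (hI Q)]
    simp only [F, map_add]
  · simp only [F, map_smul, RingHom.id_apply, MeasureTheory.integral_smul]
  · exact MeasureTheory.integral_nonneg fun g => hP _ (orb_Haar (grp_Haar g))
  · let u : G_Haar := ⟨⟨U, hU.1, mul_eq_one_comm.1 hU.1⟩, hU.2⟩
    show ∫ g, F _ g ∂μ = ∫ g, F _ g ∂μ
    rw [← MeasureTheory.integral_mul_left_eq_self (F (ell (U * Y * Uᴴ) ^ 6)) u]
    refine congrArg _ (funext fun g => ?_)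
    simp only [F, map_pow, aeval_ell]
    congr 1
    have e : X (u * g) = U * X g * Uᴴ := by
      show U * g.1.1 * _ * (U * g.1.1)ᴴ = U * (g.1.1 * _ * g.1.1ᴴ) * Uᴴ
      simp only [conjTranspose_mul, Matrix.mul_assoc]
    calc (X (u * g) * (U * Y * Uᴴ)).trace = (U * (X g * (Uᴴ * U) * Y) * Uᴴ).trace := by
          simp only [e, Matrix.mul_assoc]
      _ = (X g * Y).trace := by
          rw [trace_mul_comm, ← Matrix.mul_assoc, hU.1, Matrix.one_mul, Matrix.mul_one]
  · show ∫ g, F _ g ∂μ ≠ 0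
    let f : G_Haar → ℝ := fun g => (X g * dg ![1, 0, 0]).trace.re ^ 6
    have e : F (ell (dg ![1, 0, 0]) ^ 6) = fun g => (f g : ℂ) := funext fun g => by
      simp only [F, f, map_pow, aeval_ell, ofReal_pow]
      rw [← real_Haar (orb_Haar (grp_Haar g)).1 (dg_star_Haar _)]
    have hf : Continuous f :=
      (Complex.continuous_re.comp (hX.matrix_mul continuous_const).matrix_trace).pow 6
    have h1 : f 1 ≠ 0 := by
      have e1 : X 1 = dg fun _ => 1 := by
        show (1 : Matrix K K ℂ) * _ * (1 : Matrix K K ℂ)ᴴ = _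
        simp
      simp only [f, e1, dg, diagonal_mul_diagonal, trace_diagonal]
      simp [Fin.sum_univ_three]
    rw [e, integral_complex_ofReal, ofReal_ne_zero]
    exact (hf.integral_pos_of_hasCompactSupport_nonneg_nonzero
      (HasCompactSupport.of_compactSpace _) (fun g => Even.pow_nonneg (by decide) _) h1).ne'

end Pool.Agent.MP_12a176_ag.Six
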