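import Pool.Agent.MP_12a176_ag.Six.St

set_option autoImplicit false

namespace Pool.Agent.MP_12a176_ag.Six

open Complex Matrix MvPolynomial
open scoped ComplexOrder ComplexConjugate
open scoped Manifold ContDiff
open MeasureTheory

theorem dens_Main {m : ℕ} {W : Type} [AddCommGroup W] [Module ℂ W] {a b : Fin m → W}
    (hx : Good (xw a b)) {T : Subalgebra.center ℂ (ExteriorAlgebra ℂ W) →ₗ[ℂ] ℂ}
    (hT : T (vol (xw a b)) = 1) (H : (Fin m → ℂ) → Matrix (Fin m) (Fin m) ℂ)
    {P : MvPolynomial (Fin m × Fin m) ℂ} (hP : P.IsHomogeneous m) (z : Fin m → ℂ) :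
    extDens a b H P z = T (ev (mform (xw a b) fun k l => -mw I l (conn H k) z) P) := by
  have e : extDens a b H P = cwDens (xw a b) H P := rfl
  rw [e, cwDens_eq]
  exact eps_eq hx (aeval_top hx
    (fun c : Fin m × Fin m => Matrix.of fun k l => (-mw I l (conn H k) z) c.1 c.2) hP hT)

theorem cont_Main {m : ℕ} {W : Type} [AddCommGroup W] [Module ℂ W] {a b : Fin m → W}
    (hx : Good (xw a b)) {Q : MvPolynomial (Fin m × Fin m) ℂ} (hQ : Q.IsHomogeneous m)
    {U : Set (Fin m → ℂ)} {H S : (Fin m → ℂ) → Matrix (Fin m) (Fin m) ℂ} (h : LocalHK U H S)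
    (hU : IsOpen U) (hH : ∀ w ∈ U, (H w).PosDef) : ContinuousOn (extDens a b H Q) U := by
  have e : extDens a b H Q = cwDens (xw a b) H Q := rfl
  rw [e, cwDens_eq]
  exact dens_cont hx (fun k l a b => (wirt_smooth hU (conn_smooth hU h.smooth
    (fun w hw => (hH w hw).det_pos.ne') k a b)).continuousOn.neg) hQ

section

variable {m : ℕ} {M : Type*} [TopologicalSpace M] [ChartedSpace (Fin m → ℂ) M]
  [IsManifold 𝓘(ℂ, Fin m → ℂ) ω M] [T2Space M] [CompactSpace M]
  {h σ : M → Matrix (Fin m) (Fin m) ℂ}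

theorem int_Main {Q : MvPolynomial (Fin m × Fin m) ℂ} (hQ : Q.IsHomogeneous m)
    (g : IsHKMetric h σ) (ρ : PartitionOfUnity M M Set.univ)
    (hρ : ρ.IsSubordinate fun p => (chartAt (Fin m → ℂ) p).source) (p : M) :
    IntegrableOn (fun z => ρ p ((chartAt (Fin m → ℂ) p).symm z) *
      (extDens dz dzb (metricIn h p) Q z).re) (chartAt (Fin m → ℂ) p).target := by
  set φ := chartAt (Fin m → ℂ) p
  have h2 := cont_Main good_dz hQ (g.charts p) φ.open_target fun w hw => (g.curv p hw).1
  have h3 : IsCompact (φ '' tsupport (ρ p)) :=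
    (isClosed_tsupport _).isCompact.image_of_continuousOn (φ.continuousOn.mono (hρ p))
  have h4 : φ '' tsupport (ρ p) ⊆ φ.target := by
    rintro _ ⟨y, hy, rfl⟩; exact φ.map_source (hρ p hy)
  refine IntegrableOn.of_forall_sdiff_eq_zero (ContinuousOn.integrableOn_compact h3
    (ContinuousOn.mono ?_ h4)) φ.open_target.measurableSet fun z hz => ?_
  · exact ((ρ p).continuous.comp_continuousOn φ.continuousOn_symm).mul
      (continuous_re.comp_continuousOn h2)
  · rw [image_eq_zero_of_notMem_tsupport fun h => hz.2 ⟨_, h, φ.right_inv hz.1⟩, zero_mul]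

theorem glob_Main {P Q R : MvPolynomial (Fin m × Fin m) ℂ} (hP : P.IsHomogeneous m)
    (hQ : Q.IsHomogeneous m) (hR : R.IsHomogeneous m) (a b c : ℝ)
    (g : IsHKMetric h σ) (ρ : PartitionOfUnity M M Set.univ)
    (hρ : ρ.IsSubordinate fun p => (chartAt (Fin m → ℂ) p).source)
    (hp : ∀ p, ∀ z ∈ (chartAt (Fin m → ℂ) p).target,
      0 ≤ a * (extDens dz dzb (metricIn h p) P z).re + b * (extDens dz dzb (metricIn h p) Q z).re
        + c * (extDens dz dzb (metricIn h p) R z).re) :
    0 ≤ a * charNumber h ρ P + b * charNumber h ρ Q + c * charNumber h ρ R := by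
  have hs := ρ.locallyFinite.finite_nonempty_of_compact
  have e : ∀ P, charNumber h ρ P = ∑ p ∈ hs.toFinset, ∫ z in (chartAt (Fin m → ℂ) p).target,
      ρ p ((chartAt (Fin m → ℂ) p).symm z) * (extDens dz dzb (metricIn h p) P z).re := fun P => by
    refine finsum_eq_sum_of_support_subset_of_finite _ (fun p hp => ?_) hs
    by_contra h0
    simp only [Set.mem_ofPred_eq, Set.not_nonempty_iff_eq_empty,
      Function.support_eq_empty_iff] at h0
    simp [h0] at hp
  rw [e, e, e, Finset.mul_sum, Finset.mul_sum, Finset.mul_sum, ← Finset.sum_add_distrib,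
    ← Finset.sum_add_distrib]
  refine Finset.sum_nonneg fun p _ => ?_
  have i1 := (int_Main hP g ρ hρ p).const_mul a
  have i2 := (int_Main hQ g ρ hρ p).const_mul b
  have i3 := (int_Main hR g ρ hρ p).const_mul c
  rw [← integral_const_mul, ← integral_const_mul, ← integral_const_mul, ← integral_add i1 i2,
    ← integral_add (i1.fun_add i2) i3]
  refine setIntegral_nonneg (chartAt (Fin m → ℂ) p).open_target.measurableSet fun z hz => ?_
  have := mul_nonneg (ρ.nonneg p ((chartAt (Fin m → ℂ) p).symm z)) (hp p z hz)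
  linarith

end

theorem s_main.{u} (h : SPoint) : SMain.{u} := by
  intro M _ _ _ _ _ H σ g ρ hρ
  have p1 : (chernPoly 6 2 ^ 3).IsHomogeneous 6 := (chern_homog 2).pow 3
  have p2 : (chernPoly 6 2 * chernPoly 6 4).IsHomogeneous 6 := (chern_homog 2).mul (chern_homog 4)
  have p3 : (chernPoly 6 6).IsHomogeneous 6 := chern_homog 6
  refine glob_Main p1 p2 p3 5 12 16 g ρ hρ fun p z hz => ?_
  obtain ⟨T, hT⟩ := Module.Projective.exists_dual_eq_one ℂ (vol_ne (good_dz (m := 6)))
  have hc := (g.charts p).curv (chartAt (Fin 6 → ℂ) p).open_target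
    (fun w hw => (g.curv p hw).1) hz (g.curv p hz).2
  have hs : (formIn σ p z)ᵀ = -formIn σ p z := by
    rw [formIn, transpose_mul, transpose_mul, transpose_transpose, g.skew, Matrix.neg_mul,
      Matrix.mul_neg, Matrix.mul_assoc]
  have h1 := h _ _ good_dz _ _ _ hc hs T hT
  simp only [P6, map_add, map_smul] at h1
  rw [← dens_Main good_dz hT _ p1, ← dens_Main good_dz hT _ p2,
    ← dens_Main good_dz hT _ p3] at h1
  have h2 := (Complex.nonneg_iff.1 h1).1
  simpa using h2

end Pool.Agent.MP_12a176_ag.Six
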