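import Pool.Agent.MP_12a176_ag.Six.St

/- The pointwise inequality from the ring inequality and the frame. -/

set_option autoImplicit false

namespace Pool.Agent.MP_12a176_ag.Six

open Complex Matrix MvPolynomial
open scoped ComplexOrder ComplexConjugate

theorem sp_Point {R : Type} [CommRing R] [Algebra ℂ R] (x : Fin 6 → Fin 6 → R)
    (A : Fin 6 → Fin 6 → Matrix (Fin 6) (Fin 6) ℂ) (h : ∀ k l, IsSp ((A k l).submatrix eK eK)) :
    IsSp ((mform x A).submatrix eK eK) := by
  have hJ : JJ R = (JJ ℂ).map (algebraMap ℂ R) := (Matrix.map_J _ _).symm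
  unfold IsSp
  rw [hJ]
  ext a b
  simp only [mform, Matrix.add_apply, Matrix.mul_apply, of_apply, map_apply, submatrix_apply,
    transpose_apply, mul_comm _ (algebraMap ℂ R _), ← Algebra.smul_def, ← map_smul, ← map_sum,
    ← map_add, Matrix.zero_apply]
  rw [← map_zero (formL x)]
  congr 1
  ext k l
  have := congrFun (congrFun (h k l) a) b
  simp only [Matrix.add_apply, Matrix.mul_apply, submatrix_apply, transpose_apply,
    Matrix.zero_apply] at this
  simpa only [Matrix.add_apply, Matrix.sum_apply, Matrix.smul_apply, of_apply, smul_eq_mul,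
    Matrix.zero_apply, mul_comm] using this

theorem tr_Point {R : Type} [CommRing R] [Algebra ℂ R] (x : Fin 6 → Fin 6 → R)
    (A : Fin 6 → Fin 6 → Matrix (Fin 6) (Fin 6) ℂ) (η : Matrix K K ℂ) :
    (η.map (algebraMap ℂ R) * (mform x A).submatrix eK eK).trace =
      form x (Matrix.of fun k l => (η.submatrix eK.symm eK.symm * A k l).trace) := by
  change _ = formL x _
  simp only [mform, Matrix.trace, Matrix.diag, Matrix.mul_apply, of_apply, map_apply,
    submatrix_apply, ← Algebra.smul_def, ← map_smul, ← map_sum]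
  refine congrArg _ ?_
  ext k l
  simp only [Matrix.sum_apply, Matrix.smul_apply, of_apply, smul_eq_mul]
  refine Fintype.sum_equiv eK _ _ fun a => Fintype.sum_equiv eK _ _ fun b => ?_
  rw [Equiv.symm_apply_apply, Equiv.symm_apply_apply]

theorem s_point (h1 : SRing) (h2 : SFrame) : SPoint := by
  intro R _ _ x hx H S Θ h hS T hT
  obtain ⟨g, hg, hsp⟩ := h2 H S Θ h hS
  have hu : IsUnit g.det := by
    have := h.pos.det_pos.ne'
    rw [hg, det_mul] at this
    exact (left_ne_zero_of_mul this).isUnit
  have e1 : ∀ k l, g⁻¹ * Θ k l * g = g⁻¹ * (Θ k l * H) * g⁻¹ᴴ := fun k l => by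
    rw [hg, Matrix.mul_assoc _ (_ * _), Matrix.mul_assoc (Θ k l),
      Matrix.mul_assoc g, ← conjTranspose_mul, nonsing_inv_mul _ hu, conjTranspose_one,
      Matrix.mul_one, Matrix.mul_assoc]
  have e3 : (mform x fun k l => g⁻¹ * Θ k l * g) =
      g⁻¹.map (algebraMap ℂ R) * mform x Θ * g.map (algebraMap ℂ R) := by
    ext a b
    simp only [mform, Matrix.mul_apply, of_apply, map_apply, mul_comm _ (algebraMap ℂ R _),
      ← Algebra.smul_def, ← map_smul, ← map_sum]
    congr 1
    ext k l
    simp [Matrix.sum_apply, mul_comm]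
  have hP : Inv P6 := fun a a' Y ha => by
    simp only [P6, map_add, map_smul, map_mul, map_pow, chern_inv _ a a' Y ha]
  have key := h1 R ((mform x fun k l => g⁻¹ * Θ k l * g).submatrix eK eK) T (sp_Point x _ hsp)
    fun η hη => by
      obtain ⟨N, hN0, hN⟩ := form_pow_vol 3
      have e6 : (η.submatrix eK.symm eK.symm)ᴴ = -η.submatrix eK.symm eK.symm := by
        rw [conjTranspose_submatrix, hη]
        rfl
      have e5 : (Matrix.of fun k l => (η.submatrix eK.symm eK.symm * (g⁻¹ * Θ k l * g)).trace) =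
          Matrix.of fun k l =>
            (g⁻¹ᴴ * η.submatrix eK.symm eK.symm * g⁻¹ * (Θ k l * H)).trace := by
        ext k l
        rw [of_apply, of_apply, e1, ← Matrix.mul_assoc, trace_mul_comm]
        simp only [Matrix.mul_assoc]
      have a1 := h.det_nonneg (ζ := g⁻¹ᴴ * η.submatrix eK.symm eK.symm * g⁻¹)
        (by simp only [conjTranspose_mul, e6, conjTranspose_conjTranspose, Matrix.mul_assoc,
          Matrix.neg_mul, Matrix.mul_neg])
      rw [tr_Point, e5]
      generalize (Matrix.of fun k l =>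
        (g⁻¹ᴴ * η.submatrix eK.symm eK.symm * g⁻¹ * (Θ k l * H)).trace) = ρ at a1
      have a2 : form x ρ ^ 6 = ((-1) ^ 3 * N * ρ.det) • vol x := hN (x := x) hx ρ
      rw [a2, map_smul, hT, smul_eq_mul, mul_one, show ((-1 : ℂ) ^ 3 * N * ρ.det) =
        -(N * ρ.det) by ring, neg_nonpos]
      exact mul_nonneg (by exact_mod_cast hN0.le) a1
  rwa [submatrix_submatrix, Equiv.self_comp_symm, submatrix_id_id, e3,
    hP.conj (mul_nonsing_inv _ hu)] at key

end Pool.Agent.MP_12a176_ag.Six
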