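import Pool.Agent.MP_12a176_ag.Six.St

/- The two linear relations between the coefficients of the average. -/

set_option autoImplicit false

namespace Pool.Agent.MP_12a176_ag.Six

open Complex Matrix MvPolynomial
open scoped ComplexOrder ComplexConjugate

noncomputable section

/-- A family of matrices in the symplectic Lie algebra. -/
def Yf (l : Fin 3 → ℂ) (w v : Fin 6 → ℂ) : Matrix K K ℂ :=
  fromBlocks !![l 0, w 0, 0; v 0, l 1, w 1; 0, v 1, l 2] !![w 4, w 2, 0; w 2, 0, w 3; 0, w 3, w 5]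
    !![v 4, v 2, 0; v 2, 0, v 3; 0, v 3, v 5]
    !![-l 0, -v 0, 0; -w 0, -l 1, -v 1; 0, -w 1, -l 2]

theorem Yf_add (l l' : Fin 3 → ℂ) (w v : Fin 6 → ℂ) (t : ℂ) :
    Yf l 0 0 + t • Yf l' w v = Yf (l + t • l') (t • w) (t • v) := by
  ext (a | a) (b | b) <;> fin_cases a <;> fin_cases b <;> simp [Yf, add_comm]

theorem Yf_sp (l : Fin 3 → ℂ) (w v : Fin 6 → ℂ) : IsSp (Yf l w v) := by
  unfold IsSp Yf JJ Matrix.J
  rw [fromBlocks_transpose, fromBlocks_multiply, fromBlocks_multiply, fromBlocks_add,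
    ← fromBlocks_zero]
  congr 1 <;> ext a b <;> fin_cases a <;> fin_cases b <;> simp

theorem Yf_skew {l : Fin 3 → ℂ} {w v : Fin 6 → ℂ} (h1 : ∀ i, conj (l i) = -l i)
    (h2 : ∀ i, conj (w i) = -v i) : (Yf l w v)ᴴ = -Yf l w v := by
  have h3 : ∀ i, conj (v i) = -w i := fun i => by
    rw [← neg_neg (v i), ← h2, map_neg, conj_conj]
  ext (a | a) (b | b) <;> fin_cases a <;> fin_cases b <;> simp [Yf, h1, h2, h3]

theorem tr_pows (Y : Matrix K K ℂ) : (Y ^ 2).trace = (Y * Y).trace ∧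
    (Y ^ 4).trace = ((Y * Y) * (Y * Y)).trace ∧
    (Y ^ 6).trace = ((Y * Y) * (Y * Y) * (Y * Y)).trace := by
  refine ⟨by rw [pow_two], ?_, ?_⟩ <;> congr 1 <;> noncomm_ring

theorem trace_blocks (A B C D : Matrix (Fin 3) (Fin 3) ℂ) :
    (fromBlocks A B C D).trace = A.trace + D.trace := by
  simp [Matrix.trace, Fintype.sum_sum_type]

/-- The value of `tr6` from the half traces. -/
def val (α β γ p q r : ℂ) : ℂ := α * (2 * p) ^ 3 + β * (2 * p) * (2 * q) + γ * (2 * r)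

/-- The value for a two by two block. -/
def blk (α β γ x y z s : ℂ) : ℂ := val α β γ (x ^ 2 + y ^ 2 + z ^ 2 + 2 * s)
  (x ^ 4 + y ^ 4 + z ^ 4 + 4 * s * (x ^ 2 + x * y + y ^ 2) + 2 * s ^ 2)
  (x ^ 6 + y ^ 6 + z ^ 6 + 6 * s * (x ^ 4 + x ^ 3 * y + x ^ 2 * y ^ 2 + x * y ^ 3 + y ^ 4) +
    s ^ 2 * (9 * x ^ 2 + 12 * x * y + 9 * y ^ 2) + 2 * s ^ 3)

/-- The value for a long root. -/
def lng (α β γ x y z s : ℂ) : ℂ := val α β γ (x ^ 2 + s + y ^ 2 + z ^ 2)
  ((x ^ 2 + s) ^ 2 + y ^ 4 + z ^ 4) ((x ^ 2 + s) ^ 3 + y ^ 6 + z ^ 6)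

/-- The values on the six families. -/
def fam (α β γ : ℂ) (l : Fin 3 → ℂ) (s : ℂ) : Fin 6 → ℂ :=
  ![blk α β γ (l 0) (l 1) (l 2) s, blk α β γ (l 2) (l 1) (l 0) s, blk α β γ (l 0) (-l 1) (l 2) s,
    blk α β γ (l 2) (-l 1) (l 0) s, lng α β γ (l 0) (l 1) (l 2) s, lng α β γ (l 2) (l 1) (l 0) s]

theorem tr6_fam (α β γ : ℂ) (l : Fin 3 → ℂ) (u v : ℂ) (j : Fin 6) :
    tr6 α β γ (Yf l (Pi.single j u) (Pi.single j v)) = fam α β γ l (u * v) j := by
  obtain ⟨h2, h4, h6⟩ := tr_pows (Yf l (Pi.single j u) (Pi.single j v))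
  rw [tr6, h2, h4, h6]
  fin_cases j <;>
  simp only [Yf, fromBlocks_multiply, trace_blocks, Matrix.mul_fin_three, Matrix.trace_fin_three_of,
    Matrix.of_add_of, Matrix.cons_add_cons, Matrix.empty_add_empty, Pi.single_eq_same, ne_eq,
    Fin.reduceEq, not_false_eq_true, Pi.single_eq_of_ne, mul_zero, zero_mul, add_zero, zero_add,
    neg_zero, Fin.reduceFinMk, Fin.zero_eta, Fin.mk_one, fam, Matrix.cons_val, blk, lng, val] <;>
  ring

theorem sten (E : MvPolynomial (K × K) ℂ →ₗ[ℂ] ℂ) (d a : MvPolynomial (K × K) ℂ) (q : ℝ → ℂ)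
    (h : ∀ t : ℝ, E ((d + (t : ℂ) • a) ^ 6) = q t) : 5400 * E (d ^ 4 * a ^ 2) =
      2 * (q 3 + q (-3)) - 27 * (q 2 + q (-2)) + 270 * (q 1 + q (-1)) - 490 * q 0 := by
  simp only [← h, ← smul_eq_mul, ← map_smul, ← map_add, ← map_sub]
  congr 1
  simp only [smul_eq_C_mul, ofReal_neg, ofReal_ofNat, ofReal_one, ofReal_zero, map_neg, map_ofNat,
    map_one, map_zero]
  ring

theorem sp_entries {X : Matrix K K ℂ} (h : IsSp X) :
    (∀ i j, X (.inr i) (.inr j) = -X (.inl j) (.inl i)) ∧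
    (∀ i j, X (.inl i) (.inr j) = X (.inl j) (.inr i)) ∧
    ∀ i j, X (.inr i) (.inl j) = X (.inr j) (.inl i) := by
  have e := fun a b => congrFun (congrFun h a) b
  refine ⟨fun i j => ?_, fun i j => ?_, fun i j => ?_⟩
  · have := e (.inr i) (.inl j)
    simp [Matrix.J, Matrix.mul_apply, Fintype.sum_sum_type, Matrix.one_apply] at this
    linear_combination this
  · have := e (.inl i) (.inl j)
    simp [Matrix.J, Matrix.mul_apply, Fintype.sum_sum_type, Matrix.one_apply] at this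
    linear_combination this
  · have := e (.inr i) (.inr j)
    simp [Matrix.J, Matrix.mul_apply, Fintype.sum_sum_type, Matrix.one_apply] at this
    linear_combination -this

theorem tr6_diag (α β γ : ℂ) (l : Fin 3 → ℂ) :
    tr6 α β γ (Yf l 0 0) = lng α β γ (l 0) (l 1) (l 2) 0 := by
  have := tr6_fam α β γ l 0 0 4
  simpa [fam] using this

theorem trace_Yf {X : Matrix K K ℂ} (h : IsSp X) (l : Fin 3 → ℂ) (w v : Fin 6 → ℂ) :
    (X * Yf l w v).trace = 2 * (l 0 * X (.inl 0) (.inl 0) + l 1 * X (.inl 1) (.inl 1) +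
      l 2 * X (.inl 2) (.inl 2) + w 0 * X (.inl 1) (.inl 0) + v 0 * X (.inl 0) (.inl 1) +
      w 1 * X (.inl 2) (.inl 1) + v 1 * X (.inl 1) (.inl 2) + w 2 * X (.inr 1) (.inl 0) +
      v 2 * X (.inl 0) (.inr 1) + w 3 * X (.inr 1) (.inl 2) + v 3 * X (.inl 2) (.inr 1)) +
      w 4 * X (.inr 0) (.inl 0) + v 4 * X (.inl 0) (.inr 0) + w 5 * X (.inr 2) (.inl 2) +
      v 5 * X (.inl 2) (.inr 2) := by
  obtain ⟨h1, h2, h3⟩ := sp_entries h
  simp [Yf, Matrix.trace, Matrix.mul_apply, Fintype.sum_sum_type, Fin.sum_univ_three, h1]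
  rw [h2 1 0, h2 1 2, h3 0 1]
  rw [h3 2 1]
  ring

theorem s_rel : SRel := by
  intro E hE α β γ h
  have key : ∀ l : Fin 3 → ℂ, (∀ i, conj (l i) = -l i) →
      2 * (l 0 ^ 2 + l 1 ^ 2 + l 2 ^ 2) * (l 0 ^ 2 - l 2 ^ 2) * (24 * α + 14 * β + 3 * γ) +
        (l 0 ^ 4 - l 2 ^ 4) * (16 * β + 21 * γ) = 0 := by
    intro l hl
    have h1 : ∀ (l' : Fin 3 → ℂ) (w v : Fin 6 → ℂ), (∀ i, conj (l' i) = -l' i) →
        (∀ i, conj (w i) = -v i) → ∀ t : ℝ, E ((ell (Yf l 0 0) + (t : ℂ) • ell (Yf l' w v)) ^ 6) =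
          tr6 α β γ (Yf (l + (t : ℂ) • l') ((t : ℂ) • w) ((t : ℂ) • v)) := by
      intro l' w v a b t
      rw [← ell_smul, ← ell_add, Yf_add]
      refine h _ (Yf_skew (fun i => ?_) fun i => ?_) (Yf_sp _ _ _)
      · simp [hl, a, add_comm]
      · simp [b]
    have h2 : ∀ (j : Fin 6) (u v : ℂ), conj u = -v → u * v = -1 →
        5400 * E (ell (Yf l 0 0) ^ 4 * ell (Yf 0 (Pi.single j u) (Pi.single j v)) ^ 2) =
          4 * fam α β γ l (-9) j - 54 * fam α β γ l (-4) j + 540 * fam α β γ l (-1) j -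
            490 * fam α β γ l 0 j := by
      intro j u v a b
      rw [sten E _ _ (fun t => fam α β γ l (-(t : ℂ) ^ 2) j) fun t => ?_]
      · norm_num
        ring
      · rw [h1 0 _ _ (by simp) fun i => ?_, smul_zero, add_zero, ← Pi.single_smul,
          ← Pi.single_smul, tr6_fam]
        · congr 1
          simp only [smul_eq_mul]
          linear_combination (t : ℂ) ^ 2 * b
        · by_cases hi : i = j
          · simp [hi, a]
          · simp [hi]
    have h3 := fun j => h2 j 1 (-1) (by simp) (by simp)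
    have h4 := fun j => h2 j I I (by simp) (by simp)
    have h5 := fun k : Fin 3 => sten E _ _ _ (h1 (Pi.single k I) 0 0 (fun i => by
      by_cases hi : i = k <;> simp [hi]) (by simp))
    let a : Fin 6 → ℂ → ℂ → MvPolynomial (K × K) ℂ := fun j u v =>
      ell (Yf l 0 0) ^ 4 * ell (Yf 0 (Pi.single j u) (Pi.single j v)) ^ 2
    let d : Fin 3 → MvPolynomial (K × K) ℂ := fun k =>
      ell (Yf l 0 0) ^ 4 * ell (Yf (Pi.single k I) 0 0) ^ 2
    have h6 := hE.eq_zero (P := (4 : ℂ) • (d 0 + a 4 1 (-1) + a 4 I I) +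
      (a 0 1 (-1) + a 0 I I + a 2 1 (-1) + a 2 I I) - ((4 : ℂ) • (d 2 + a 5 1 (-1) + a 5 I I) +
      (a 1 1 (-1) + a 1 I I + a 3 1 (-1) + a 3 I I))) fun X hX => by
        obtain ⟨-, b1, b2⟩ := hX
        obtain ⟨-, c2, c3⟩ := sp_entries b1
        have r0 := congrFun (congrFun b2 (.inl 0)) (.inl 0)
        have r2 := congrFun (congrFun b2 (.inl 2)) (.inl 2)
        simp only [Matrix.mul_apply, Fintype.sum_sum_type, Fin.sum_univ_three, Matrix.neg_apply,
          one_apply_eq] at r0 r2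
        rw [c2 2 0, c3 0 2] at r2
        simp only [a, d, map_add, map_sub, map_smul, map_mul, map_pow, aeval_ell, smul_eq_mul]
        generalize (X * Yf l 0 0).trace = L
        simp only [trace_Yf b1, Pi.single_eq_same, ne_eq, Fin.reduceEq, not_false_eq_true,
          Pi.single_eq_of_ne, Pi.zero_apply, zero_mul, add_zero, zero_add, mul_pow, ← mul_add,
          I_sq]
        linear_combination (-16 * L ^ 4) * (r0 - r2) + 4 * L ^ 4 *
          ((X (.inr 0) (.inl 0) + X (.inl 0) (.inr 0)) ^ 2 -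
            (X (.inr 2) (.inl 2) + X (.inl 2) (.inr 2)) ^ 2) * I_sq
    simp only [map_add, map_sub, map_smul, smul_eq_mul, a, d] at h6
    have e0 := h5 0
    have e2 := h5 2
    simp only [smul_zero, tr6_diag, Pi.add_apply, Pi.smul_apply, Pi.single_eq_same, ne_eq,
      Fin.reduceEq, not_false_eq_true, Pi.single_eq_of_ne, smul_eq_mul, mul_zero, add_zero,
      ofReal_neg, ofReal_ofNat, ofReal_one, ofReal_zero, lng, val] at e0 e2
    have s := fun j => congrArg₂ (· + ·) (h3 j) (h4 j)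
    have s0 := s 0
    have s1 := s 1
    have s2 := s 2
    have s3 := s 3
    have s4 := s 4
    have s5 := s 5
    simp only [fam, Matrix.cons_val, blk, lng, val] at s0 s1 s2 s3 s4 s5
    linear_combination (5400 * h6 - 4 * e0 - 4 * s4 - s0 - s2 + 4 * e2 + 4 * s5 + s1 + s3) / (-2880) +
      ((l 0 ^ 2 + l 1 ^ 2 + l 2 ^ 2) * (l 0 ^ 2 - l 2 ^ 2) * (48 * α + 12 * β) +
        (l 0 ^ 4 - l 2 ^ 4) * (16 * β + 15 * γ)) * I_sq
  have k1 := key ![I, 0, 0] fun i => by fin_cases i <;> simp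
  have k2 := key ![I, I, 0] fun i => by fin_cases i <;> simp
  simp only [Matrix.cons_val, I_sq, I_pow_four] at k1 k2
  exact ⟨by linear_combination (k2 - k1) / 2, by linear_combination 2 * k1 - k2⟩

end

end Pool.Agent.MP_12a176_ag.Six
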