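import Pool.Agent.MP_12a176_ag.Six.St

/- Invariants of degree six of the Weyl group. -/

set_option autoImplicit false

namespace Pool.Agent.MP_12a176_ag.Six

open Complex Matrix MvPolynomial
open scoped ComplexOrder ComplexConjugate

/-- A signed permutation matrix. -/
noncomputable def mon_Weyl (τ : K → K) (ε : K → ℝ) : Matrix K K ℂ :=
  Matrix.of fun i j => if j = τ i then (ε i : ℂ) else 0

theorem mon_star_Weyl (τ : K → K) (ε : K → ℝ) : (mon_Weyl τ ε)ᴴ = (mon_Weyl τ ε)ᵀ := by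
  ext i j
  simp only [mon_Weyl, conjTranspose_apply, transpose_apply, of_apply]
  split_ifs <;> simp

theorem mon_mul_Weyl (τ : K → K) (ε : K → ℝ) (A : Matrix K K ℂ) (i j : K) :
    (mon_Weyl τ ε * A * (mon_Weyl τ ε)ᵀ) i j = ε i * A (τ i) (τ j) * ε j := by
  simp only [mon_Weyl, Matrix.mul_apply, transpose_apply, of_apply, ite_mul, zero_mul, mul_ite,
    mul_zero, Finset.sum_ite_eq', Finset.mem_univ, if_true]

theorem inv_Weyl {E : MvPolynomial (K × K) ℂ →ₗ[ℂ] ℂ} (hE : Inv6 E) (τ : K → K) (ε : K → ℝ)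
    (y y' : Fin 3 → ℝ)
    (h1 : ∀ i j, ε i * (1 : Matrix K K ℂ) (τ i) (τ j) * ε j = (1 : Matrix K K ℂ) i j)
    (h2 : ∀ i j, ε i * JJ ℂ (τ i) (τ j) * ε j = JJ ℂ i j)
    (h3 : ∀ i j, ε i * dg y (τ i) (τ j) * ε j = dg y' i j) :
    E (ell (dg y') ^ 6) = E (ell (dg y) ^ 6) := by
  have e : mon_Weyl τ ε * dg y * (mon_Weyl τ ε)ᴴ = dg y' := by
    ext i j
    rw [mon_star_Weyl, mon_mul_Weyl, h3]
  rw [← e]
  refine hE _ _ ⟨?_, ?_⟩
  · rw [mul_eq_one_comm]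
    ext i j
    rw [mon_star_Weyl, ← h1, ← mon_mul_Weyl, Matrix.mul_one]
  · ext i j
    rw [mon_mul_Weyl, h2]

theorem perm_Weyl {E : MvPolynomial (K × K) ℂ →ₗ[ℂ] ℂ} (hE : Inv6 E) (s : Fin 3 → Fin 3)
    (hs : Function.Injective s) (y : Fin 3 → ℝ) :
    E (ell (dg (y ∘ s)) ^ 6) = E (ell (dg y) ^ 6) := by
  refine inv_Weyl hE (Sum.map s s) (fun _ => 1) _ _ ?_ ?_ ?_ <;> rintro (i | i) (j | j) <;>
    simp [Matrix.J, dg, Matrix.one_apply, diagonal_apply, hs.eq_iff]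

theorem flip_Weyl {E : MvPolynomial (K × K) ℂ →ₗ[ℂ] ℂ} (hE : Inv6 E) (a b c : ℝ) :
    E (ell (dg ![-a, b, c]) ^ 6) = E (ell (dg ![a, b, c]) ^ 6) := by
  refine inv_Weyl hE (Sum.elim ![Sum.inr 0, Sum.inl 1, Sum.inl 2] ![Sum.inl 0, Sum.inr 1, Sum.inr 2])
    (Sum.elim ![-1, 1, 1] fun _ => 1) _ _ ?_ ?_ ?_ <;> rintro (i | i) (j | j) <;>
    fin_cases i <;> fin_cases j <;> simp [Matrix.J, dg]

theorem ell_dg_Weyl : ∃ x y z : MvPolynomial (K × K) ℂ, ∀ a b c : ℝ,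
    ell (dg ![a, b, c]) = (a : ℂ) • x + (b : ℂ) • y + (c : ℂ) • z := by
  refine ⟨ell (dg ![1, 0, 0]), ell (dg ![0, 1, 0]), ell (dg ![0, 0, 1]), fun a b c => ?_⟩
  rw [← ell_smul, ← ell_smul, ← ell_smul, ← ell_add, ← ell_add]
  congr 1
  simp only [dg, ← diagonal_smul, diagonal_add]
  congr 1
  funext i
  rcases i with i | i <;> fin_cases i <;> simp [mul_comm]

theorem eight_Weyl {R : Type} [CommRing R] (x y z : R) :
    (x + y + z) ^ 6 + (-x + y + z) ^ 6 + (x + -y + z) ^ 6 + (-x + -y + z) ^ 6 +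
      ((x + y + -z) ^ 6 + (-x + y + -z) ^ 6 + (x + -y + -z) ^ 6 + (-x + -y + -z) ^ 6) =
    8 * (x ^ 6 + y ^ 6 + z ^ 6) + 120 * (x ^ 4 * y ^ 2 + x ^ 2 * y ^ 4 + x ^ 4 * z ^ 2 +
      x ^ 2 * z ^ 4 + y ^ 4 * z ^ 2 + y ^ 2 * z ^ 4) + 720 * (x ^ 2 * y ^ 2 * z ^ 2) := by
  ring

theorem shape_Weyl {R : Type} [CommRing R] [Algebra ℂ R] (E : R →ₗ[ℂ] ℂ) (x y z : R)
    (M : ℝ → ℝ → ℝ → ℂ)
    (hM : ∀ a b c : ℝ, M a b c = E (((a : ℂ) • x + (b : ℂ) • y + (c : ℂ) • z) ^ 6))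
    (h1 : ∀ a b c, M (-a) b c = M a b c) (h2 : ∀ a b c, M b a c = M a b c)
    (h3 : ∀ a b c, M a c b = M a b c) : ∃ A B C : ℂ, ∀ a b c : ℝ, M a b c =
      A * (a ^ 6 + b ^ 6 + c ^ 6) + B * (a ^ 4 * b ^ 2 + a ^ 2 * b ^ 4 + a ^ 4 * c ^ 2 +
        a ^ 2 * c ^ 4 + b ^ 4 * c ^ 2 + b ^ 2 * c ^ 4) + C * (a ^ 2 * b ^ 2 * c ^ 2) := by
  have h4 : ∀ a b c, M a (-b) c = M a b c := fun a b c => by rw [← h2, h1, h2]
  have h5 : ∀ a b c, M a b (-c) = M a b c := fun a b c => by rw [← h3, h4, h3]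
  have key : ∀ a b c : ℝ, M a b c = a ^ 6 * E (x ^ 6) + b ^ 6 * E (y ^ 6) + c ^ 6 * E (z ^ 6) +
      15 * (a ^ 4 * b ^ 2 * E (x ^ 4 * y ^ 2) + a ^ 2 * b ^ 4 * E (x ^ 2 * y ^ 4) +
        a ^ 4 * c ^ 2 * E (x ^ 4 * z ^ 2) + a ^ 2 * c ^ 4 * E (x ^ 2 * z ^ 4) +
        b ^ 4 * c ^ 2 * E (y ^ 4 * z ^ 2) + b ^ 2 * c ^ 4 * E (y ^ 2 * z ^ 4)) +
      90 * (a ^ 2 * b ^ 2 * c ^ 2 * E (x ^ 2 * y ^ 2 * z ^ 2)) := fun a b c => by
    have e := congrArg E (eight_Weyl ((a : ℂ) • x) ((b : ℂ) • y) ((c : ℂ) • z))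
    have n8 : ∀ w : R, E (8 * w) = 8 * E w := fun w => by
      rw [← smul_eq_mul (8 : ℂ), ← map_smul, Algebra.smul_def, map_ofNat]
    have n120 : ∀ w : R, E (120 * w) = 120 * E w := fun w => by
      rw [← smul_eq_mul (120 : ℂ), ← map_smul, Algebra.smul_def, map_ofNat]
    have n720 : ∀ w : R, E (720 * w) = 720 * E w := fun w => by
      rw [← smul_eq_mul (720 : ℂ), ← map_smul, Algebra.smul_def, map_ofNat]
    simp only [← neg_smul, ← ofReal_neg, map_add, ← hM, h1, h4, h5, n8, n120, n720] at e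
    simp only [_root_.smul_pow, smul_mul_smul_comm, map_smul, smul_eq_mul] at e
    linear_combination e / 8
  have a1 := h2 1 0 0
  have a2 := h3 0 1 0
  have b1 := h2 1 2 0
  have b2 := h3 1 2 0
  have b3 := h3 1 0 1
  have b5 := h2 0 1 2
  have b6 := h2 0 2 1
  simp only [key] at a1 a2 b1 b2 b3 b5 b6
  push_cast at a1 a2 b1 b2 b3 b5 b6
  generalize E (x ^ 6) = A1 at *
  generalize E (y ^ 6) = A2 at *
  generalize E (z ^ 6) = A3 at *
  generalize E (x ^ 4 * y ^ 2) = B1 at *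
  generalize E (x ^ 2 * y ^ 4) = B2 at *
  generalize E (x ^ 4 * z ^ 2) = B3 at *
  generalize E (x ^ 2 * z ^ 4) = B4 at *
  generalize E (y ^ 4 * z ^ 2) = B5 at *
  generalize E (y ^ 2 * z ^ 4) = B6 at *
  have e2 : A2 = A1 := by linear_combination a1
  have e3 : A3 = A1 := by linear_combination a2 + a1
  subst e2 e3
  have f2 : B2 = B1 := by linear_combination -b1 / 180
  have f4 : B4 = B2 := by linear_combination (b2 + 4 * b3) / 180
  have f3 : B3 = B1 := by linear_combination -b3 / 15 - f4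
  have f5 : B5 = B3 := by linear_combination (b5 - 4 * b6) / 900
  have f6 : B6 = B4 := by linear_combination (b6 - 4 * b5) / 900
  subst f6 f5 f4 f3 f2
  refine ⟨A3, 15 * B6, 90 * E (x ^ 2 * y ^ 2 * z ^ 2), fun a b c => ?_⟩
  rw [key]
  ring

theorem trace_Weyl (a b c : ℝ) (k : ℕ) : (dg ![a, b, c] ^ (2 * k)).trace =
    2 * (-1) ^ k * (a ^ (2 * k) + b ^ (2 * k) + c ^ (2 * k)) := by
  simp only [dg, diagonal_pow, trace_diagonal, Fintype.sum_sum_type, Fin.sum_univ_three,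
    Pi.pow_apply, Sum.elim_inl, Sum.elim_inr, pow_mul, neg_sq, mul_pow, I_sq, cons_val_zero,
    cons_val_one, cons_val_two, head_cons, tail_cons]
  ring

theorem s_weyl : SWeyl := by
  intro E hE
  obtain ⟨x, y, z, h⟩ := ell_dg_Weyl
  obtain ⟨A, B, C, hM⟩ := shape_Weyl E x y z (fun a b c => E (ell (dg ![a, b, c]) ^ 6))
    (fun a b c => by rw [h]) (flip_Weyl hE)
    (fun a b c => by
      have e : ![a, b, c] ∘ ![1, 0, 2] = ![b, a, c] := by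
        funext i
        fin_cases i <;> rfl
      rw [← perm_Weyl hE ![1, 0, 2] (by decide) ![a, b, c], e])
    (fun a b c => by
      have e : ![a, b, c] ∘ ![0, 2, 1] = ![a, c, b] := by
        funext i
        fin_cases i <;> rfl
      rw [← perm_Weyl hE ![0, 2, 1] (by decide) ![a, b, c], e])
  refine ⟨-C / 48, -(B - C / 2) / 4, -(A - B + C / 3) / 2, fun w => ?_⟩
  obtain ⟨a, b, c, rfl⟩ : ∃ a b c, w = ![a, b, c] :=
    ⟨w 0, w 1, w 2, by funext i; fin_cases i <;> rfl⟩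
  have t1 := trace_Weyl a b c 1
  have t2 := trace_Weyl a b c 2
  have t3 := trace_Weyl a b c 3
  simp only [Nat.reduceMul] at t1 t2 t3
  rw [hM, tr6, t1, t2, t3]
  ring

end Pool.Agent.MP_12a176_ag.Six
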