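import Pool.Agent.MP_12a176_ag.Six.St

set_option autoImplicit false

namespace Pool.Agent.MP_12a176_ag.Six

open Complex Matrix MvPolynomial
open scoped ComplexOrder ComplexConjugate

section
variable {α : Type} [Fintype α] [DecidableEq α]

/-- a normalised pair -/
structure Q_Spec (S T : Matrix α α ℂ) (ε : ℝ) (v w : α → ℂ) (d μ : ℝ) : Prop where
  pos : 0 < d
  tv : T *ᵥ v = (μ : ℂ) • v
  tw : T *ᵥ w = ((ε : ℂ) * μ) • w
  jv : S *ᵥ star v = (d : ℂ) • w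
  jw : S *ᵥ star w = (-(d : ℂ)) • v
  vv : star v ⬝ᵥ v = 1
  ww : star w ⬝ᵥ w = 1
  vw : star v ⬝ᵥ w = 0

omit [DecidableEq α] in
theorem sym_Spec {a b : α → ℂ} (h : star a ⬝ᵥ b = 0) : star b ⬝ᵥ a = 0 := by
  rw [star_dotProduct, h, star_zero]

omit [DecidableEq α] in
theorem skew_Spec {S : Matrix α α ℂ} (hS : Sᵀ = -S) (a b : α → ℂ) :
    a ⬝ᵥ S *ᵥ b = -(b ⬝ᵥ S *ᵥ a) := by
  rw [dotProduct_mulVec, ← mulVec_transpose, hS, neg_mulVec, neg_dotProduct, dotProduct_comm]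

omit [DecidableEq α] in
theorem herm_Spec {T : Matrix α α ℂ} (hT : Tᴴ = T) (a b : α → ℂ) :
    star a ⬝ᵥ T *ᵥ b = star (T *ᵥ a) ⬝ᵥ b := by
  rw [dotProduct_mulVec, star_mulVec, hT]

omit [DecidableEq α] in
theorem cj_Spec (T : Matrix α α ℂ) (a : α → ℂ) : star (T *ᵥ a) = T.map conj *ᵥ star a := by
  ext x
  simp [mulVec, dotProduct]

omit [DecidableEq α] in
theorem nrm_Spec {x : α → ℂ} (hx : x ≠ 0) : ∃ r : ℝ, 0 < r ∧ star x ⬝ᵥ x = (r : ℂ) ^ 2 := by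
  have h0 : 0 ≤ star x ⬝ᵥ x := dotProduct_star_self_nonneg x
  have h1 : star x ⬝ᵥ x ≠ 0 := fun h => hx (dotProduct_star_self_eq_zero.1 h)
  obtain ⟨hre, him⟩ := Complex.nonneg_iff.1 h0
  have e : star x ⬝ᵥ x = ((star x ⬝ᵥ x).re : ℂ) := Complex.ext rfl (by simp [← him])
  have h2 : 0 < (star x ⬝ᵥ x).re := lt_of_le_of_ne hre fun h => h1 (by rw [e, ← h]; simp)
  refine ⟨Real.sqrt (star x ⬝ᵥ x).re, Real.sqrt_pos.2 h2, ?_⟩
  rw [← Complex.ofReal_pow, Real.sq_sqrt hre]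
  exact e

theorem step_Spec (hc : Fintype.card α = 6) {S T : Matrix α α ℂ} {ε : ℝ} (hS : Sᵀ = -S)
    (hd : S.det ≠ 0) (hT : Tᴴ = T) (hTS : T * S = (ε : ℂ) • (S * T.map conj))
    (hν : ∀ (v : α → ℂ) (μ : ℂ), T *ᵥ v = μ • v → ∃ ν : ℂ, (S * S.map conj) *ᵥ v = ν • v)
    (f : Fin 4 → α → ℂ) (h1 : ∀ a, ∃ c : ℂ, T *ᵥ f a = c • f a)
    (h2 : ∀ a, ∃ (e : ℂ) (b : Fin 4), S *ᵥ star (f a) = e • f b) :
    ∃ v w d μ, Q_Spec S T ε v w d μ ∧ ∀ a, star (f a) ⬝ᵥ v = 0 ∧ star (f a) ⬝ᵥ w = 0 := by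
  let L : (α → ℂ) →ₗ[ℂ] (Fin 4 → ℂ) := Matrix.mulVecLin (Matrix.of fun a => star (f a))
  have hL : ∀ x, x ∈ LinearMap.ker L ↔ ∀ a, star (f a) ⬝ᵥ x = 0 := fun x => by
    rw [LinearMap.mem_ker, funext_iff]; rfl
  have hne : LinearMap.ker L ≠ ⊥ := LinearMap.ker_ne_bot_of_finrank_lt (by simp [hc])
  have hst : ∀ x ∈ LinearMap.ker L, Matrix.mulVecLin T x ∈ LinearMap.ker L := fun x hx => by
    rw [hL] at hx ⊢
    intro a
    obtain ⟨c, hc⟩ := h1 a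
    rw [mulVecLin_apply, herm_Spec hT, hc, star_smul, smul_dotProduct, hx a, smul_zero]
  have : Nontrivial (LinearMap.ker L) := Submodule.nontrivial_iff_ne_bot.2 hne
  obtain ⟨m, hm⟩ := Module.End.exists_eigenvalue ((Matrix.mulVecLin T).restrict hst)
  obtain ⟨x, hx⟩ := hm.exists_hasEigenvector
  have hx0 : (x : α → ℂ) ≠ 0 := fun h => hx.2 (Subtype.ext h)
  have hx1 : T *ᵥ (x : α → ℂ) = m • (x : α → ℂ) := congrArg Subtype.val hx.apply_eq_smul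
  obtain ⟨r, hr, hxr⟩ := nrm_Spec hx0
  have hr0 : (r : ℂ) ≠ 0 := by exact_mod_cast hr.ne'
  obtain ⟨v, hv⟩ : ∃ v, v = (r : ℂ)⁻¹ • (x : α → ℂ) := ⟨_, rfl⟩
  have hvv : star v ⬝ᵥ v = 1 := by
    rw [hv, star_smul, smul_dotProduct, dotProduct_smul, hxr]
    simp only [star_inv₀, RCLike.star_def, conj_ofReal, smul_eq_mul]
    field_simp
  have hv1 : T *ᵥ v = m • v := by rw [hv, mulVec_smul, hx1, smul_comm]
  have hvf : ∀ a, star (f a) ⬝ᵥ v = 0 := fun a => by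
    rw [hv, dotProduct_smul, (hL _).1 x.2 a, smul_zero]
  have hm : m = (m.re : ℂ) := by
    have := herm_Spec hT v v
    rw [hv1, star_smul, smul_dotProduct, dotProduct_smul, hvv, smul_eq_mul, smul_eq_mul, mul_one,
      mul_one] at this
    exact (Complex.conj_eq_iff_re.1 this.symm).symm
  have hv0 : v ≠ 0 := fun h => by rw [h, dotProduct_zero] at hvv; exact zero_ne_one hvv
  have hj0 : S *ᵥ star v ≠ 0 := fun h =>
    hv0 (star_eq_zero.1 (Matrix.eq_zero_of_mulVec_eq_zero hd h))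
  obtain ⟨d, hd0, hdd⟩ := nrm_Spec hj0
  have hd1 : (d : ℂ) ≠ 0 := by exact_mod_cast hd0.ne'
  obtain ⟨ν, hν⟩ := hν v m hv1
  have hjj : S *ᵥ star (S *ᵥ star v) = ν • v := by rw [cj_Spec, star_star, mulVec_mulVec, hν]
  have hν2 : ν = -(d : ℂ) ^ 2 := by
    rw [skew_Spec hS, hjj, dotProduct_smul, hvv, smul_eq_mul, mul_one] at hdd
    rw [← hdd, neg_neg]
  have hsd : star (d : ℂ)⁻¹ = (d : ℂ)⁻¹ := by simp
  refine ⟨v, (d : ℂ)⁻¹ • S *ᵥ star v, d, m.re, ⟨hd0, by rw [← hm, hv1], ?_, ?_, ?_, hvv, ?_, ?_⟩,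
    fun a => ⟨hvf a, ?_⟩⟩
  · rw [mulVec_smul, mulVec_mulVec, hTS, smul_mulVec, ← mulVec_mulVec, ← cj_Spec, hv1, hm,
      star_smul, mulVec_smul, smul_smul, smul_smul, smul_smul]
    congr 1
    simp only [RCLike.star_def, conj_ofReal, ofReal_re]
    ring
  · rw [smul_smul, mul_inv_cancel₀ hd1, one_smul]
  · rw [star_smul, mulVec_smul, hjj, hsd, smul_smul, hν2]
    congr 1
    field_simp
  · rw [star_smul, smul_dotProduct, dotProduct_smul, hdd, hsd, smul_eq_mul, smul_eq_mul]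
    field_simp
  · have := skew_Spec hS (star v) (star v)
    rw [dotProduct_smul, self_eq_neg.1 this, smul_zero]
  · obtain ⟨e, b, he⟩ := h2 a
    rw [dotProduct_smul, skew_Spec hS, he, dotProduct_smul, sym_Spec (hvf b), smul_zero, neg_zero,
      smul_zero]

end

theorem s_spec : SSpec := by
  intro α _ _ hc S T ε hS hd hT hTS hν
  have st := step_Spec hc hS hd hT hTS hν
  have z1 : ∃ c : ℂ, T *ᵥ (0 : α → ℂ) = c • (0 : α → ℂ) := ⟨0, by simp⟩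
  have z2 : ∀ f : Fin 4 → α → ℂ, ∃ (e : ℂ) (b : Fin 4), S *ᵥ star (0 : α → ℂ) = e • f b :=
    fun f => ⟨0, 0, by simp⟩
  obtain ⟨v0, w0, d0, m0, q0, -⟩ := st (fun _ => 0) (fun _ => z1) (fun _ => z2 _)
  obtain ⟨v1, w1, d1, m1, q1, o1⟩ := st ![v0, w0, 0, 0] (fun a => by
    fin_cases a
    exacts [⟨_, q0.tv⟩, ⟨_, q0.tw⟩, z1, z1]) (fun a => by
    fin_cases a
    exacts [⟨_, 1, q0.jv⟩, ⟨_, 0, q0.jw⟩, z2 _, z2 _])
  obtain ⟨v2, w2, d2, m2, q2, o2⟩ := st ![v0, w0, v1, w1] (fun a => by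
    fin_cases a
    exacts [⟨_, q0.tv⟩, ⟨_, q0.tw⟩, ⟨_, q1.tv⟩, ⟨_, q1.tw⟩]) (fun a => by
    fin_cases a
    exacts [⟨_, 1, q0.jv⟩, ⟨_, 0, q0.jw⟩, ⟨_, 3, q1.jv⟩, ⟨_, 2, q1.jw⟩])
  have q : ∀ i : Fin 3, Q_Spec S T ε (![v0, v1, v2] i) (![w0, w1, w2] i) (![d0, d1, d2] i)
      (![m0, m1, m2] i) := fun i => by
    fin_cases i
    exacts [q0, q1, q2]
  have o : ∀ i j : Fin 3, i < j → (star (![v0, v1, v2] i) ⬝ᵥ ![v0, v1, v2] j = 0 ∧
      star (![v0, v1, v2] i) ⬝ᵥ ![w0, w1, w2] j = 0) ∧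
      star (![w0, w1, w2] i) ⬝ᵥ ![v0, v1, v2] j = 0 ∧
      star (![w0, w1, w2] i) ⬝ᵥ ![w0, w1, w2] j = 0 := fun i j h => by
    fin_cases i <;> fin_cases j
    exacts [absurd h (by decide), ⟨o1 0, o1 1⟩, ⟨o2 0, o2 1⟩, absurd h (by decide),
      absurd h (by decide), ⟨o2 2, o2 3⟩, absurd h (by decide), absurd h (by decide),
      absurd h (by decide)]
  generalize ![v0, v1, v2] = v at q o
  generalize ![w0, w1, w2] = w at q o
  generalize ![d0, d1, d2] = d at q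
  generalize ![m0, m1, m2] = m at q
  refine ⟨Matrix.of fun x a => Sum.elim v w a x, d, m, fun i => (q i).pos, ?_, ?_, ?_⟩
  · ext a b
    change star (Sum.elim v w a) ⬝ᵥ Sum.elim v w b = _
    rcases a with i | i <;> rcases b with j | j <;> rcases lt_trichotomy i j with h | rfl | h <;>
      simp only [Sum.elim_inl, Sum.elim_inr]
    · rw [(o i j h).1.1, one_apply_ne (by simpa using h.ne)]
    · rw [(q i).vv, one_apply_eq]
    · rw [sym_Spec (o j i h).1.1, one_apply_ne (by simpa using h.ne')]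
    · rw [(o i j h).1.2, one_apply_ne (by simp)]
    · rw [(q i).vw, one_apply_ne (by simp)]
    · rw [sym_Spec (o j i h).2.1, one_apply_ne (by simp)]
    · rw [(o i j h).2.1, one_apply_ne (by simp)]
    · rw [sym_Spec (q i).vw, one_apply_ne (by simp)]
    · rw [sym_Spec (o j i h).1.2, one_apply_ne (by simp)]
    · rw [(o i j h).2.2, one_apply_ne (by simpa using h.ne)]
    · rw [(q i).ww, one_apply_eq]
    · rw [sym_Spec (o j i h).2.2, one_apply_ne (by simpa using h.ne')]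
  · ext x a
    rw [mul_diagonal]
    change (T *ᵥ Sum.elim v w a) x = _
    rcases a with i | i
    · simp [(q i).tv, mul_comm]
    · simp [(q i).tw, mul_comm]
  · ext x a
    change (S *ᵥ star (Sum.elim v w a)) x = _
    rw [mul_apply, Fintype.sum_sum_type]
    rcases a with i | i
    · simp [(q i).jv, diagonal_apply, mul_comm]
    · simp [(q i).jw, diagonal_apply, mul_comm]

end Pool.Agent.MP_12a176_ag.Six
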