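import Pool.Agent.Mg.F12a176.Ge2ae14

/- Statements of the steps for the sixfold inequality. -/

set_option autoImplicit false

namespace Pool.Agent.MP_12a176_ag.Six

open Complex Matrix MvPolynomial
open scoped ComplexOrder ComplexConjugate Manifold ContDiff

noncomputable section

universe u

/-- The index set. -/
abbrev K : Type := Fin 3 ⊕ Fin 3

/-- The standard skew matrix. -/
abbrev JJ (R : Type) [CommRing R] : Matrix K K R := Matrix.J (Fin 3) R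

/-- The symplectic Lie algebra. -/
def IsSp {R : Type} [CommRing R] (Y : Matrix K K R) : Prop := Y * JJ R + JJ R * Yᵀ = 0

/-- The compact symplectic group. -/
def Grp (U : Matrix K K ℂ) : Prop := Uᴴ * U = 1 ∧ U * JJ ℂ * Uᵀ = JJ ℂ

/-- Complex structures in the compact Lie algebra. -/
def Orb (X : Matrix K K ℂ) : Prop := Xᴴ = -X ∧ IsSp X ∧ X * X = -1

/-- The Cartan subalgebra. -/
def dg (y : Fin 3 → ℝ) : Matrix K K ℂ :=
  diagonal (Sum.elim (fun k => I * y k) fun k => -(I * y k))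

/-- The linear form `X ↦ tr (X Y)`. -/
def ell (Y : Matrix K K ℂ) : MvPolynomial (K × K) ℂ := ∑ a : K × K, Y a.2 a.1 • X a

/-- Positive on the orbit. -/
def Pos (E : MvPolynomial (K × K) ℂ →ₗ[ℂ] ℂ) : Prop :=
  ∀ P, (∀ X, Orb X → 0 ≤ aeval (fun a : K × K => X a.1 a.2) P) → 0 ≤ E P

/-- Invariant on sixth powers. -/
def Inv6 (E : MvPolynomial (K × K) ℂ →ₗ[ℂ] ℂ) : Prop :=
  ∀ U Y, Grp U → E (ell (U * Y * Uᴴ) ^ 6) = E (ell Y ^ 6)

/-- An invariant polynomial in traces. -/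
def tr6 (α β γ : ℂ) (Y : Matrix K K ℂ) : ℂ :=
  α * (Y ^ 2).trace ^ 3 + β * (Y ^ 2).trace * (Y ^ 4).trace + γ * (Y ^ 6).trace

/-- The reindexing. -/
def eK : K ≃ Fin 6 := finSumFinEquiv

/-- The combination of Chern monomials. -/
def P6 : MvPolynomial (Fin 6 × Fin 6) ℂ :=
  (5 : ℂ) • chernPoly 6 2 ^ 3 + (12 : ℂ) • (chernPoly 6 2 * chernPoly 6 4) + (16 : ℂ) • chernPoly 6 6

/-- Quaternionic spectral theorem. -/
def SSpec : Prop := ∀ (α : Type) [Fintype α] [DecidableEq α], Fintype.card α = 6 →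
  ∀ (S T : Matrix α α ℂ) (ε : ℝ), Sᵀ = -S → S.det ≠ 0 → Tᴴ = T →
    T * S = (ε : ℂ) • (S * T.map conj) →
    (∀ (v : α → ℂ) (μ : ℂ), T *ᵥ v = μ • v → ∃ ν : ℂ, (S * S.map conj) *ᵥ v = ν • v) →
    ∃ (U : Matrix α K ℂ) (d μ : Fin 3 → ℝ), (∀ i, 0 < d i) ∧ Uᴴ * U = 1 ∧
      T * U = U * diagonal (Sum.elim (fun i => (μ i : ℂ)) fun i => (ε : ℂ) * μ i) ∧
      S * U.map conj =
        U * fromBlocks 0 (-diagonal fun i => (d i : ℂ)) (diagonal fun i => (d i : ℂ)) 0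

/-- Conjugation to the Cartan subalgebra. -/
def SDiag : Prop := ∀ Y : Matrix K K ℂ, Yᴴ = -Y → IsSp Y → ∃ U y, Grp U ∧ Y = U * dg y * Uᴴ

/-- The invariant average. -/
def SHaar : Prop := ∃ E, Pos E ∧ Inv6 E ∧ E (ell (dg ![1, 0, 0]) ^ 6) ≠ 0

/-- Weyl group invariants. -/
def SWeyl : Prop := ∀ E, Inv6 E → ∃ α β γ : ℂ, ∀ y, E (ell (dg y) ^ 6) = tr6 α β γ (dg y)

/-- The two relations. -/
def SRel : Prop := ∀ E, Pos E → ∀ α β γ : ℂ,
  (∀ Y : Matrix K K ℂ, Yᴴ = -Y → IsSp Y → E (ell Y ^ 6) = tr6 α β γ Y) →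
    24 * α + 14 * β + 3 * γ = 0 ∧ 16 * β + 21 * γ = 0

/-- Chern polynomials on the Cartan subalgebra. -/
def SChern : Prop := ∀ (U : Matrix K K ℂ) (y : Fin 3 → ℝ), Uᴴ * U = 1 →
  tr6 41 (-84) 64 (dg y) =
    24 * (2 * Real.pi) ^ 6 * ev ((U * dg y * Uᴴ).submatrix eK.symm eK.symm) P6

/-- The average is a negative multiple of `P6`. -/
def SAvg : Prop := ∃ E, Pos E ∧ ∃ κ : ℝ, 0 < κ ∧ ∀ Y : Matrix K K ℂ, Yᴴ = -Y → IsSp Y →
  E (ell Y ^ 6) = -(κ : ℂ) * ev (Y.submatrix eK.symm eK.symm) P6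

/-- Passage to a ring of coefficients. -/
def SRing : Prop := ∀ (R : Type) [CommRing R] [Algebra ℂ R] (Z : Matrix K K R) (T : R →ₗ[ℂ] ℂ),
  IsSp Z → (∀ η : Matrix K K ℂ, ηᴴ = -η → T ((η.map (algebraMap ℂ R) * Z).trace ^ 6) ≤ 0) →
    0 ≤ T (ev (Z.submatrix eK.symm eK.symm) P6)

/-- A unitary symplectic frame. -/
def SFrame : Prop := ∀ (H S : Matrix (Fin 6) (Fin 6) ℂ)
  (Θ : Fin 6 → Fin 6 → Matrix (Fin 6) (Fin 6) ℂ), Curv H S Θ → Sᵀ = -S →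
    ∃ g : Matrix (Fin 6) (Fin 6) ℂ, H = g * gᴴ ∧ ∀ k l, IsSp ((g⁻¹ * Θ k l * g).submatrix eK eK)

/-- The pointwise inequality. -/
def SPoint : Prop := ∀ (R : Type) [CommRing R] [Algebra ℂ R] (x : Fin 6 → Fin 6 → R), Good x →
  ∀ H S Θ, Curv H S Θ → Sᵀ = -S → ∀ T : R →ₗ[ℂ] ℂ, T (vol x) = 1 → 0 ≤ T (ev (mform x Θ) P6)

/-- The theorem. -/
def SMain : Prop := ∀ (M : Type u) [TopologicalSpace M] [T2Space M] [CompactSpace M]
  [ChartedSpace (Fin 6 → ℂ) M] [IsManifold 𝓘(ℂ, Fin 6 → ℂ) ω M]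
  (h σ : M → Matrix (Fin 6) (Fin 6) ℂ), IsHKMetric h σ →
    ∀ ρ : PartitionOfUnity M M Set.univ, ρ.IsSubordinate (fun p => (chartAt (Fin 6 → ℂ) p).source) →
      0 ≤ 5 * charNumber h ρ (chernPoly 6 2 ^ 3) +
        12 * charNumber h ρ (chernPoly 6 2 * chernPoly 6 4) + 16 * charNumber h ρ (chernPoly 6 6)

theorem aeval_ell (X Y : Matrix K K ℂ) :
    aeval (fun a : K × K => X a.1 a.2) (ell Y) = (X * Y).trace := by
  simp only [ell, map_sum, map_smul, aeval_X, smul_eq_mul, trace, Matrix.diag, Matrix.mul_apply,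
    Fintype.sum_prod_type, mul_comm]

theorem ell_add (Y Z : Matrix K K ℂ) : ell (Y + Z) = ell Y + ell Z := by
  simp only [ell, Matrix.add_apply, add_smul, Finset.sum_add_distrib]

theorem ell_smul (c : ℂ) (Y : Matrix K K ℂ) : ell (c • Y) = c • ell Y := by
  simp only [ell, Matrix.smul_apply, smul_eq_mul, mul_smul, Finset.smul_sum]

theorem Pos.eq_zero {E : MvPolynomial (K × K) ℂ →ₗ[ℂ] ℂ} (h : Pos E) {P : MvPolynomial (K × K) ℂ}
    (hP : ∀ X, Orb X → aeval (fun a : K × K => X a.1 a.2) P = 0) : E P = 0 := by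
  have h1 := h P fun X hX => (hP X hX).ge
  have h2 := h (-P) fun X hX => by rw [map_neg, hP X hX, neg_zero]
  rw [map_neg] at h2
  exact le_antisymm (neg_nonneg.1 h2) h1

end

end Pool.Agent.MP_12a176_ag.Six
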